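import Mathlib

/-!
# MP_a320f3_co: acyclic flag complexes. Definitions, basic lemmas and the statements of the pieces.

`Γ` is a graph `G` on `V`; all the combinatorics is done inside finite sets `W` of vertices.
-/

namespace Pool.Agent.W2helper8.AF

open Finset
open scoped Classical

universe u
variable {V : Type u}

/-- vertices of `W` not adjacent to `x` (it contains `x` itself when `x ∈ W`) -/
noncomputable def nb (G : SimpleGraph V) (W : Finset V) (x : V) : Finset V :=
  W.filter fun y => ¬ G.Adj x y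

/-- number of ordered pairs of nonadjacent (or equal) vertices of `W`: this is `|W|^2 - 2 e(W)` -/
noncomputable def S (G : SimpleGraph V) (W : Finset V) : ℕ := ∑ x ∈ W, (nb G W x).card

/-- `Bad G n W`: `W` contains `n - 1` pairs of vertices `a i ≠ b i` and a nonempty set `C` which
spans at least `|C|` edges, with everything in different groups adjacent. -/
inductive Bad (G : SimpleGraph V) : ℕ → Finset V → Prop
  | cyc (W C : Finset V) (hC : C ⊆ W) (hne : C.Nonempty)
      (he : S G C + 2 * C.card ≤ C.card ^ 2) : Bad G 1 W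
  | susp (n : ℕ) (W : Finset V) (a b : V) (ha : a ∈ W) (hb : b ∈ W) (hab : a ≠ b)
      (h : Bad G n (W.filter fun x => G.Adj a x ∧ G.Adj b x)) : Bad G (n + 1) W

/-- no clique with `n + 2` vertices and nothing `Bad` inside `W` -/
def Ok (G : SimpleGraph V) (n : ℕ) (W : Finset V) : Prop :=
  (∀ s, s ⊆ W → ¬ G.IsNClique (n + 2) s) ∧ ¬ Bad G n W

/-- the inequality for sets with `m` elements -/
def R (G : SimpleGraph V) (n m : ℕ) : Prop :=
  ∀ W : Finset V, Ok G n W → W.card = m → ∀ q j : ℕ, j ≤ n → m = n * q + j + 1 →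
    1 + n * q ^ 2 + j * (2 * q + 1) ≤ S G W

/-- `W` has `n` colour classes, different classes completely adjacent, the classes of colour
`i ≠ 0` independent with `q` elements, the class `0` with `q + 1` elements -/
def Std4 (G : SimpleGraph V) (n q : ℕ) (W : Finset V) (c : V → ℕ) : Prop :=
  (∀ x ∈ W, c x < n) ∧
  (∀ x ∈ W, ∀ y ∈ W, c x ≠ c y → G.Adj x y) ∧
  (∀ x ∈ W, ∀ y ∈ W, c x = c y → c x ≠ 0 → ¬ G.Adj x y) ∧
  (∀ i, i < n → (W.filter fun x => c x = i).card = if i = 0 then q + 1 else q)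

/-- `Std4`, and the class `0` spans exactly `q` edges -/
def Std (G : SimpleGraph V) (n q : ℕ) (W : Finset V) (c : V → ℕ) : Prop :=
  Std4 G n q W c ∧ S G (W.filter fun x => c x = 0) = q ^ 2 + 1

/-- the extremal sets with `n q + 1` elements -/
def E (G : SimpleGraph V) (n q : ℕ) : Prop :=
  ∀ W : Finset V, Ok G n W → W.card = n * q + 1 → S G W = 1 + n * q ^ 2 →
    ∃ c : V → ℕ, Std G n q W c

/-! ### basic lemmas -/

theorem mem_nb {G : SimpleGraph V} {W : Finset V} {x y : V} :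
    y ∈ nb G W x ↔ y ∈ W ∧ ¬ G.Adj x y := by simp [nb]

theorem nb_mono {G : SimpleGraph V} {W W' : Finset V} (h : W ⊆ W') (x : V) :
    nb G W x ⊆ nb G W' x := Finset.filter_subset_filter _ h

theorem self_mem_nb {G : SimpleGraph V} {W : Finset V} {x : V} (hx : x ∈ W) : x ∈ nb G W x := by
  simp [nb, hx]

theorem Bad.mono {G : SimpleGraph V} {n : ℕ} {W W' : Finset V} (hb : Bad G n W) (h : W ⊆ W') :
    Bad G n W' := by
  induction hb generalizing W' with
  | cyc W C hC hne he => exact Bad.cyc W' C (hC.trans h) hne he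
  | susp n W a b ha hb' hab _ ih =>
    exact Bad.susp n W' a b (h ha) (h hb') hab (ih (Finset.filter_subset_filter _ h))

theorem Ok.mono {G : SimpleGraph V} {n : ℕ} {W W' : Finset V} (hk : Ok G n W') (h : W ⊆ W') :
    Ok G n W :=
  ⟨fun s hs => hk.1 s (hs.trans h), fun hb => hk.2 (hb.mono h)⟩

/-- a core `C` with at least `|C|` edges and pairs indexed by `I` -/
theorem bad_of_pairs {G : SimpleGraph V} {C : Finset V} (hne : C.Nonempty)
    (he : S G C + 2 * C.card ≤ C.card ^ 2) (I : Finset ℕ) (a b : ℕ → V)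
    (W : Finset V) (hC : C ⊆ W) (ha : ∀ i ∈ I, a i ∈ W) (hb : ∀ i ∈ I, b i ∈ W)
    (hab : ∀ i ∈ I, a i ≠ b i)
    (haC : ∀ i ∈ I, ∀ x ∈ C, G.Adj (a i) x) (hbC : ∀ i ∈ I, ∀ x ∈ C, G.Adj (b i) x)
    (haa : ∀ i ∈ I, ∀ j ∈ I, i ≠ j → G.Adj (a i) (a j))
    (hab' : ∀ i ∈ I, ∀ j ∈ I, i ≠ j → G.Adj (a i) (b j))
    (hbb : ∀ i ∈ I, ∀ j ∈ I, i ≠ j → G.Adj (b i) (b j)) :
    Bad G (I.card + 1) W := by
  induction I using Finset.induction_on generalizing W with
  | empty => simpa using Bad.cyc W C hC hne he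
  | insert i I hi ih =>
    rw [Finset.card_insert_of_notMem hi]
    refine Bad.susp _ W (a i) (b i) (ha i (mem_insert_self i I)) (hb i (mem_insert_self i I))
      (hab i (mem_insert_self i I)) ?_
    refine ih _ ?_ ?_ ?_ ?_ ?_ ?_ ?_ ?_ ?_
    · intro x hx
      exact mem_filter.2 ⟨hC hx, haC i (mem_insert_self i I) x hx, hbC i (mem_insert_self i I) x hx⟩
    · intro j hj
      have hj' : j ∈ insert i I := mem_insert_of_mem hj
      have hne' : i ≠ j := fun h => hi (h ▸ hj)
      exact mem_filter.2 ⟨ha j hj', haa i (mem_insert_self i I) j hj' hne',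
        (hab' j hj' i (mem_insert_self i I) hne'.symm).symm⟩
    · intro j hj
      have hj' : j ∈ insert i I := mem_insert_of_mem hj
      have hne' : i ≠ j := fun h => hi (h ▸ hj)
      exact mem_filter.2 ⟨hb j hj', hab' i (mem_insert_self i I) j hj' hne',
        hbb i (mem_insert_self i I) j hj' hne'⟩
    · exact fun j hj => hab j (mem_insert_of_mem hj)
    · exact fun j hj => haC j (mem_insert_of_mem hj)
    · exact fun j hj => hbC j (mem_insert_of_mem hj)
    · exact fun j hj l hl => haa j (mem_insert_of_mem hj) l (mem_insert_of_mem hl)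
    · exact fun j hj l hl => hab' j (mem_insert_of_mem hj) l (mem_insert_of_mem hl)
    · exact fun j hj l hl => hbb j (mem_insert_of_mem hj) l (mem_insert_of_mem hl)

/-- a clique `C` and one vertex `r i` for every `i ∈ I` -/
theorem clique_of_reps {G : SimpleGraph V} {C : Finset V} {k : ℕ} (hC : G.IsNClique k C)
    (I : Finset ℕ) (r : ℕ → V) (hrC : ∀ i ∈ I, ∀ x ∈ C, G.Adj (r i) x)
    (hrr : ∀ i ∈ I, ∀ j ∈ I, i ≠ j → G.Adj (r i) (r j)) :
    ∃ s : Finset V, G.IsNClique (k + I.card) s ∧ ∀ x ∈ s, x ∈ C ∨ ∃ i ∈ I, x = r i := by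
  induction I using Finset.induction_on with
  | empty => exact ⟨C, by simpa using hC, fun x hx => Or.inl hx⟩
  | insert i I hi ih =>
    obtain ⟨s, hs, hs'⟩ := ih (fun j hj => hrC j (mem_insert_of_mem hj))
      (fun j hj l hl => hrr j (mem_insert_of_mem hj) l (mem_insert_of_mem hl))
    have hadj : ∀ x ∈ s, G.Adj (r i) x := by
      intro x hx
      rcases hs' x hx with h | ⟨j, hj, rfl⟩
      · exact hrC i (mem_insert_self i I) x h
      · exact hrr i (mem_insert_self i I) j (mem_insert_of_mem hj) (fun h => hi (h ▸ hj))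
    refine ⟨insert (r i) s, ?_, ?_⟩
    · rw [Finset.card_insert_of_notMem hi, ← add_assoc]
      exact hs.insert hadj
    · intro x hx
      rcases mem_insert.1 hx with rfl | hx
      · exact Or.inr ⟨i, mem_insert_self i I, rfl⟩
      · rcases hs' x hx with h | ⟨j, hj, rfl⟩
        · exact Or.inl h
        · exact Or.inr ⟨j, mem_insert_of_mem hj, rfl⟩

/-- the greedy choice of a clique -/
theorem greedy {G : SimpleGraph V} {q : ℕ} (k : ℕ) (A : Finset V)
    (hA : ∀ x ∈ A, (nb G A x).card ≤ q) (hk : k * q < A.card + q) (hq : 1 ≤ q) :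
    ∃ U ⊆ A, G.IsNClique k U := by
  induction k generalizing A with
  | zero => exact ⟨∅, by simp, by simp [SimpleGraph.isNClique_iff]⟩
  | succ k ih =>
    have hne : A.Nonempty := by
      rw [← Finset.card_pos]
      nlinarith
    obtain ⟨x, hx⟩ := hne
    have hsplit : (A.filter fun y => G.Adj x y).card + (nb G A x).card = A.card :=
      Finset.card_filter_add_card_filter_not _
    obtain ⟨U, hU, hcl⟩ := ih (A.filter fun y => G.Adj x y)
      (fun y hy => (Finset.card_le_card (nb_mono (filter_subset _ _) y)).trans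
        (hA y (mem_filter.1 hy).1)) (by have := hA x hx; nlinarith)
    exact ⟨insert x U, insert_subset hx (hU.trans (filter_subset _ _)),
      hcl.insert fun y hy => (mem_filter.1 (hU hy)).2⟩

/-- removing a set `U` of vertices -/
theorem S_sdiff (G : SimpleGraph V) {W U : Finset V} (h : U ⊆ W) :
    S G (W \ U) + 2 * ∑ u ∈ U, (nb G W u).card = S G W + S G U := by
  have h1 : S G W = ∑ x ∈ W \ U, (nb G W x).card + ∑ x ∈ U, (nb G W x).card := by
    rw [S]; exact (Finset.sum_sdiff h).symm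
  have h2 : ∀ x, (nb G W x).card = (nb G (W \ U) x).card + (nb G U x).card := by
    intro x
    rw [← Finset.card_union_of_disjoint]
    · congr 1
      ext y
      simp only [mem_nb, mem_union, mem_sdiff]
      constructor
      · rintro ⟨a, b⟩
        by_cases hy : y ∈ U
        · exact Or.inr ⟨hy, b⟩
        · exact Or.inl ⟨⟨a, hy⟩, b⟩
      · rintro (⟨⟨a, _⟩, b⟩ | ⟨a, b⟩)
        · exact ⟨a, b⟩
        · exact ⟨h a, b⟩
    · rw [Finset.disjoint_left]
      intro y hy hy'
      exact (mem_sdiff.1 (mem_nb.1 hy).1).2 (mem_nb.1 hy').1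
  have h3 : ∑ x ∈ W \ U, (nb G U x).card = ∑ x ∈ U, (nb G (W \ U) x).card := by
    simp only [nb, Finset.card_filter]
    rw [Finset.sum_comm]
    simp only [G.adj_comm]
  have h4 : ∑ x ∈ W \ U, (nb G W x).card
      = S G (W \ U) + ∑ x ∈ W \ U, (nb G U x).card := by
    rw [S, ← Finset.sum_add_distrib]
    exact Finset.sum_congr rfl fun x _ => h2 x
  have h5 : ∑ x ∈ U, (nb G W x).card = ∑ x ∈ U, (nb G (W \ U) x).card + S G U := by
    rw [S, ← Finset.sum_add_distrib]
    exact Finset.sum_congr rfl fun x _ => h2 x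
  omega

theorem S_clique {G : SimpleGraph V} {U : Finset V} (h : G.IsClique (U : Set V)) :
    S G U = U.card := by
  rw [S, Finset.card_eq_sum_ones]
  refine Finset.sum_congr rfl fun x hx => ?_
  have : nb G U x = {x} := by
    ext y
    simp only [mem_nb, mem_singleton]
    constructor
    · rintro ⟨hy, hn⟩
      by_contra hne
      exact hn (h (mem_coe.2 hx) (mem_coe.2 hy) (fun e => hne e.symm))
    · rintro rfl
      exact ⟨hx, G.irrefl⟩
  rw [this, card_singleton]

/-- removing one vertex -/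
theorem S_erase (G : SimpleGraph V) {W : Finset V} {x : V} (h : x ∈ W) :
    S G (W.erase x) + 2 * (nb G W x).card = S G W + 1 := by
  have h1 := S_sdiff G (Finset.singleton_subset_iff.2 h)
  have h2 : S G ({x} : Finset V) = 1 := by
    rw [S_clique (by simp), card_singleton]
  rw [h2, Finset.sum_singleton, Finset.sdiff_singleton_eq_erase] at h1
  exact h1

theorem card_le_S (G : SimpleGraph V) (W : Finset V) : W.card ≤ S G W := by
  rw [S, Finset.card_eq_sum_ones]
  exact Finset.sum_le_sum fun x hx => Finset.card_pos.2 ⟨x, self_mem_nb hx⟩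

/-- `S` has the parity of the number of vertices -/
theorem S_parity (G : SimpleGraph V) (W : Finset V) : ∃ e : ℕ, S G W = W.card + 2 * e := by
  induction W using Finset.induction_on with
  | empty => exact ⟨0, by simp [S]⟩
  | insert x W hx ih =>
    obtain ⟨e, he⟩ := ih
    have h := S_erase G (mem_insert_self x W)
    rw [Finset.erase_insert hx, he] at h
    have hpos : 1 ≤ (nb G (insert x W) x).card :=
      Finset.card_pos.2 ⟨x, self_mem_nb (mem_insert_self x W)⟩
    refine ⟨e + ((nb G (insert x W) x).card - 1), ?_⟩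
    rw [Finset.card_insert_of_notMem hx]
    omega

/-- the colour class of a vertex of colour `≠ 0` is its set of nonneighbours -/
theorem Std4.nb_eq {G : SimpleGraph V} {n q : ℕ} {W : Finset V} {c : V → ℕ} (h : Std4 G n q W c)
    {x : V} (hx : x ∈ W) (h0 : c x ≠ 0) : nb G W x = W.filter fun y => c y = c x := by
  ext y
  simp only [mem_nb, mem_filter]
  constructor
  · rintro ⟨hy, hn⟩
    refine ⟨hy, ?_⟩
    by_contra hne
    exact hn (h.2.1 x hx y hy (fun e => hne e.symm))
  · rintro ⟨hy, he⟩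
    exact ⟨hy, h.2.2.1 x hx y hy he.symm h0⟩

theorem Std4.card_nb {G : SimpleGraph V} {n q : ℕ} {W : Finset V} {c : V → ℕ} (h : Std4 G n q W c)
    {x : V} (hx : x ∈ W) (h0 : c x ≠ 0) : (nb G W x).card = q := by
  rw [h.nb_eq hx h0, h.2.2.2 _ (h.1 x hx), if_neg h0]

/-- from `Std4` to `Std` -/
theorem Std4.std {G : SimpleGraph V} {n q : ℕ} {W : Finset V} {c : V → ℕ} (hn : 1 ≤ n)
    (h : Std4 G n q W c) (hW : W.card = n * q + 1) (hS : S G W = 1 + n * q ^ 2) :
    Std G n q W c := by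
  refine ⟨h, ?_⟩
  set T := W.filter fun x => c x = 0 with hT
  have hTW : T ⊆ W := filter_subset _ _
  have hTc : T.card = q + 1 := by
    have := h.2.2.2 0 (by omega)
    simpa [hT] using this
  have h1 : S G W = ∑ x ∈ W \ T, (nb G W x).card + ∑ x ∈ T, (nb G W x).card := by
    rw [S]; exact (Finset.sum_sdiff hTW).symm
  have h2 : ∑ x ∈ W \ T, (nb G W x).card = (W \ T).card * q := by
    rw [Finset.sum_const_nat]
    intro x hx
    have hx' := mem_sdiff.1 hx
    exact h.card_nb hx'.1 (fun h0 => hx'.2 (mem_filter.2 ⟨hx'.1, h0⟩))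
  have h3 : ∑ x ∈ T, (nb G W x).card = S G T := by
    rw [S]
    refine Finset.sum_congr rfl fun x hx => ?_
    congr 1
    ext y
    simp only [mem_nb]
    constructor
    · rintro ⟨hy, hn'⟩
      refine ⟨mem_filter.2 ⟨hy, ?_⟩, hn'⟩
      by_contra hne
      exact hn' (h.2.1 x (hTW hx) y hy (fun e => hne (by rw [← e]; exact (mem_filter.1 hx).2)))
    · rintro ⟨hy, hn'⟩
      exact ⟨hTW hy, hn'⟩
  have h4 : (W \ T).card = n * q - q := by
    rw [Finset.card_sdiff_of_subset hTW, hW, hTc]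
    omega
  rw [h2, h3, h4, hS] at h1
  have h5 : (n * q - q) * q = n * q ^ 2 - q ^ 2 := by
    rw [Nat.sub_mul]; ring_nf
  have h6 : q ^ 2 ≤ n * q ^ 2 := Nat.le_mul_of_pos_left _ (by omega)
  omega

/-! ### the statements of the pieces -/

/-- piece X -/
def XStm : Prop := ∀ {V : Type u} (G : SimpleGraph V) (n q : ℕ) (W : Finset V) (x0 : V)
  (c : V → ℕ), 1 ≤ n → 2 ≤ q → W.card = n * q + 2 → (∀ x ∈ W, (nb G W x).card = q) → x0 ∈ W →
  Std G n q (W.erase x0) c → Bad G n W

/-- piece RSTEP -/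
def RStepStm : Prop := ∀ {V : Type u} (G : SimpleGraph V) (n m : ℕ), 1 ≤ n → R G n m →
  (∀ q, 2 ≤ q → m = n * q + 1 → E G n q) → R G n (m + 1)

/-- piece E2 -/
def E2Stm : Prop := ∀ {V : Type u} (G : SimpleGraph V) (n : ℕ), 1 ≤ n → R G n (2 * n) → E G n 2

/-- the situation of the induction step for `E`: `Y` is the smaller extremal set (with `n q + 1`
elements), `U` the added `n`-clique -/
structure Ctx (G : SimpleGraph V) (n q : ℕ) (Y U : Finset V) : Prop where
  hn : 1 ≤ n
  hq : 2 ≤ q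
  disj : Disjoint Y U
  ok : Ok G n (Y ∪ U)
  clq : G.IsNClique n U
  su : ∀ u ∈ U, (nb G Y u).card = q
  sx : ∀ x ∈ Y ∪ U, (nb G (Y ∪ U) x).card ≤ q + 1

/-- `u` is adjacent to everything of `Y` of colour `≠ i`, and if `i ≠ 0` to nothing of colour `i` -/
def Ty (G : SimpleGraph V) (n : ℕ) (Y : Finset V) (c : V → ℕ) (i : ℕ) (u : V) : Prop :=
  i < n ∧ (∀ x ∈ Y, c x ≠ i → G.Adj u x) ∧ (i ≠ 0 → ∀ x ∈ Y, c x = i → ¬ G.Adj u x)

/-- the exceptional type of `u`: its nonneighbours in `Y` are `z` (colour `0`) and all vertices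
of colour `i` except `w`, and the vertices `≠ z` of colour `0` are independent -/
def TyC (G : SimpleGraph V) (n : ℕ) (Y : Finset V) (c : V → ℕ) (u z w : V) (i : ℕ) : Prop :=
  z ∈ Y ∧ c z = 0 ∧ i < n ∧ i ≠ 0 ∧ w ∈ Y ∧ c w = i ∧ G.Adj u w ∧ ¬ G.Adj u z ∧
  (∀ x ∈ Y, c x = i → x ≠ w → ¬ G.Adj u x) ∧ (∀ x ∈ Y, c x ≠ i → x ≠ z → G.Adj u x) ∧
  (∀ x ∈ Y, ∀ y ∈ Y, c x = 0 → c y = 0 → x ≠ z → y ≠ z → ¬ G.Adj x y)

/-- piece CLASSIFY -/
def ClassifyStm : Prop := ∀ {V : Type u} (G : SimpleGraph V) (n q : ℕ) (Y U : Finset V)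
  (c : V → ℕ) (w : V), Ctx G n q Y U → Std G n q Y c → w ∈ U →
  (∃ i, Ty G n Y c i w) ∨ (∃ z y i, TyC G n Y c w z y i)

/-- piece ASM -/
def AsmStm : Prop := ∀ {V : Type u} (G : SimpleGraph V) (n q : ℕ) (Y U : Finset V)
  (c : V → ℕ), Ctx G n q Y U → Std G n q Y c → (∀ w ∈ U, ∃ i, Ty G n Y c i w) →
  ∃ c' : V → ℕ, Std4 G n (q + 1) (Y ∪ U) c'

/-- piece SWAP -/
def SwapStm : Prop := ∀ {V : Type u} (G : SimpleGraph V) (n q : ℕ) (Y U : Finset V)
  (c : V → ℕ) (w z y : V) (i : ℕ), Ctx G n q Y U → Std G n q Y c → w ∈ U →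
  TyC G n Y c w z y i →
  ∃ c' : V → ℕ, Std G n q Y c' ∧ ∀ w' ∈ U, ∀ z' y' i', ¬ TyC G n Y c' w' z' y' i'

/-- piece ESTEP (from the three pieces CLASSIFY, ASM, SWAP) -/
def EStepStm : Prop := ∀ {V : Type u} (G : SimpleGraph V) (n q : ℕ), 1 ≤ n → 2 ≤ q →
  R G n (n * (q + 1)) → E G n q → E G n (q + 1)

/-- piece COMB (from RSTEP, E2, ESTEP) -/
def CombStm : Prop := ∀ {V : Type u} (G : SimpleGraph V) (n : ℕ) (W : Finset V), 1 ≤ n →
  W.Nonempty → Ok G n W → ((W.card : ℤ) - 1) ^ 2 ≤ (n : ℤ) * ((S G W : ℤ) - 1)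

end Pool.Agent.W2helper8.AF
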