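import Mathlib
import Pool.Agent.W2helper8.AF.Stm

/-!
# MP_a320f3_co: piece E2
-/

namespace Pool.Agent.W2helper8.AF

open Finset
open scoped Classical

universe u
variable {V : Type u}

theorem pair_col {G : SimpleGraph V} (m : ℕ) (M : Finset V) (hM : M.card = 2 * m)
    (h2 : ∀ x ∈ M, (nb G M x).card = 2) :
    ∃ c : V → ℕ, (∀ x ∈ M, c x < m) ∧ (∀ x ∈ M, ∀ y ∈ M, c x ≠ c y → G.Adj x y) ∧
      (∀ x ∈ M, ∀ y ∈ M, c x = c y → ¬ G.Adj x y) ∧
      ∀ i < m, (M.filter fun x => c x = i).card = 2 := by
  induction m generalizing M with
  | zero =>
    have : M = ∅ := Finset.card_eq_zero.1 (by simpa using hM)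
    subst this
    exact ⟨fun _ => 0, by simp, by simp, by simp, by simp⟩
  | succ m ih =>
    have hne : M.Nonempty := Finset.card_pos.1 (by omega)
    obtain ⟨x, hx⟩ := hne
    obtain ⟨M', hM'⟩ : ∃ M', M' = M.filter fun y => G.Adj x y := ⟨_, rfl⟩
    have hsplit : M'.card + (nb G M x).card = M.card := by
      rw [hM']; exact Finset.card_filter_add_card_filter_not _
    have hcard : M'.card = 2 * m := by
      have := h2 x hx
      omega
    have key : ∀ z ∈ M', ∀ w ∈ nb G M x, G.Adj z w := by
      intro z hz w hw
      by_contra hn
      rw [hM', mem_filter] at hz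
      have hw' := mem_nb.1 hw
      have hzw : z ≠ w := fun e => hw'.2 (e ▸ hz.2)
      have hzx : z ≠ x := fun e => G.irrefl (e ▸ hz.2)
      have hwx : w ≠ x := by
        rintro rfl
        exact hn hz.2.symm
      have h3 : ({w, x, z} : Finset V) ⊆ nb G M w := by
        intro t ht
        simp only [mem_insert, mem_singleton] at ht
        rcases ht with rfl | rfl | rfl
        · exact self_mem_nb hw'.1
        · exact mem_nb.2 ⟨hx, fun e => hw'.2 e.symm⟩
        · exact mem_nb.2 ⟨hz.1, fun e => hn e.symm⟩
      have h4 := Finset.card_le_card h3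
      rw [h2 w hw'.1, Finset.card_insert_of_notMem (by simp [hwx, hzw.symm]),
        Finset.card_insert_of_notMem (by simp [hzx.symm]), card_singleton] at h4
      omega
    have hnb : ∀ y ∈ M', nb G M' y = nb G M y := by
      intro y hy
      refine Finset.Subset.antisymm (nb_mono (by rw [hM']; exact filter_subset _ _) y) ?_
      intro z hz
      have hz' := mem_nb.1 hz
      refine mem_nb.2 ⟨?_, hz'.2⟩
      by_contra hcon
      have : z ∈ nb G M x := by
        rw [mem_nb]
        refine ⟨hz'.1, fun e => hcon ?_⟩
        rw [hM']
        exact mem_filter.2 ⟨hz'.1, e⟩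
      exact hz'.2 (key y hy z this)
    obtain ⟨c, hc1, hc2, hc3, hc4⟩ := ih M' hcard (fun y hy => by
      rw [hnb y hy]
      exact h2 y (by rw [hM'] at hy; exact (mem_filter.1 hy).1))
    have hcases : ∀ z ∈ M, z ∈ M' ∨ (z ∉ M' ∧ z ∈ nb G M x) := by
      intro z hz
      by_cases h : G.Adj x z
      · left; rw [hM']; exact mem_filter.2 ⟨hz, h⟩
      · right
        refine ⟨fun h' => h (by rw [hM'] at h'; exact (mem_filter.1 h').2), mem_nb.2 ⟨hz, h⟩⟩
    have hnbadj : ∀ z ∈ nb G M x, ∀ w ∈ nb G M x, ¬ G.Adj z w := by
      intro z hz w hw hadj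
      have hz' := mem_nb.1 hz
      have hw' := mem_nb.1 hw
      have hzw : z ≠ w := G.ne_of_adj hadj
      have hzx : z ≠ x := by rintro rfl; exact hw'.2 hadj
      have hwx : w ≠ x := by rintro rfl; exact hz'.2 hadj.symm
      have h3 : ({x, z, w} : Finset V) ⊆ nb G M x := by
        intro t ht
        simp only [mem_insert, mem_singleton] at ht
        rcases ht with rfl | rfl | rfl
        · exact self_mem_nb hx
        · exact hz
        · exact hw
      have h4 := Finset.card_le_card h3
      rw [h2 x hx, Finset.card_insert_of_notMem (by simp [hzx.symm, hwx.symm]),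
        Finset.card_insert_of_notMem (by simp [hzw]), card_singleton] at h4
      omega
    refine ⟨fun z => if z ∈ M' then c z else m, ?_, ?_, ?_, ?_⟩
    · intro z hz
      rcases hcases z hz with h | h
      · simp only [h, if_true]
        have := hc1 z h
        omega
      · simp only [h.1, if_false]
        omega
    · intro z hz w hw hne
      rcases hcases z hz with h | h <;> rcases hcases w hw with h' | h'
      · simp only [h, h', if_true] at hne
        exact hc2 z h w h' hne
      · exact key z h w h'.2
      · exact (key w h' z h.2).symm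
      · simp only [h.1, h'.1, if_false] at hne
        exact absurd rfl hne
    · intro z hz w hw he
      rcases hcases z hz with h | h <;> rcases hcases w hw with h' | h'
      · simp only [h, h', if_true] at he
        exact hc3 z h w h' he
      · simp only [h, h'.1, if_true, if_false] at he
        have := hc1 z h
        omega
      · simp only [h', h.1, if_true, if_false] at he
        have := hc1 w h'
        omega
      · exact hnbadj z h.2 w h'.2
    · intro i hi
      by_cases him : i = m
      · subst him
        have : (M.filter fun z => (if z ∈ M' then c z else i) = i) = nb G M x := by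
          ext z
          simp only [mem_filter]
          constructor
          · rintro ⟨hz, he⟩
            rcases hcases z hz with h | h
            · simp only [h, if_true] at he
              have := hc1 z h
              omega
            · exact h.2
          · intro hz
            have hz' := mem_nb.1 hz
            refine ⟨hz'.1, ?_⟩
            have : z ∉ M' := by
              rw [hM', mem_filter]
              exact fun h => hz'.2 h.2
            simp [this]
        rw [this, h2 x hx]
      · have : (M.filter fun z => (if z ∈ M' then c z else m) = i) = M'.filter fun z => c z = i := by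
          ext z
          simp only [mem_filter]
          constructor
          · rintro ⟨hz, he⟩
            by_cases h : z ∈ M'
            · simp only [h, if_true] at he
              exact ⟨h, he⟩
            · simp only [h, if_false] at he
              omega
          · rintro ⟨hz, he⟩
            refine ⟨?_, by simp [hz, he]⟩
            rw [hM'] at hz
            exact (mem_filter.1 hz).1
        rw [this, hc4 i (by omega)]

theorem p_e2 : E2Stm.{u} := by
  intro V G n hn hR W hok hW hS
  -- every `s x ≤ 2`
  have hs : ∀ x ∈ W, (nb G W x).card ≤ 2 := by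
    intro x hx
    have h1 := hR (W.erase x) (hok.mono (erase_subset _ _))
      (by rw [card_erase_of_mem hx, hW]; omega) 1 (n - 1) (by omega) (by omega)
    have h2 := S_erase G hx
    rw [hS] at h2
    obtain ⟨n', rfl⟩ : ∃ n', n = n' + 1 := ⟨n - 1, by omega⟩
    simp only [Nat.add_sub_cancel] at h1
    omega
  have hs1 : ∀ x ∈ W, 1 ≤ (nb G W x).card := fun x hx => Finset.card_pos.2 ⟨x, self_mem_nb hx⟩
  -- the sum of the deficiencies
  have hsum : ∑ x ∈ W, (2 - (nb G W x).card) = 1 := by
    have h1 : ∑ x ∈ W, (2 - (nb G W x).card) + ∑ x ∈ W, (nb G W x).card = ∑ x ∈ W, 2 := by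
      rw [← Finset.sum_add_distrib]
      exact Finset.sum_congr rfl fun x hx => Nat.sub_add_cancel (hs x hx)
    rw [Finset.sum_const, hW, smul_eq_mul] at h1
    have h2 : ∑ x ∈ W, (nb G W x).card = 1 + n * 2 ^ 2 := hS
    omega
  have hex : ∃ x0 ∈ W, (nb G W x0).card = 1 := by
    by_contra hcon
    push Not at hcon
    have : ∑ x ∈ W, (2 - (nb G W x).card) = 0 := by
      refine Finset.sum_eq_zero fun x hx => ?_
      have h1 := hs1 x hx
      have h2 := hcon x hx
      omega
    omega
  obtain ⟨x0, hx0, hx01⟩ := hex
  have hrest : ∀ x ∈ W, x ≠ x0 → (nb G W x).card = 2 := by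
    intro x hx hne
    have h1 : (2 - (nb G W x).card) + (2 - (nb G W x0).card)
        ≤ ∑ x ∈ W, (2 - (nb G W x).card) := by
      have : ∑ y ∈ ({x, x0} : Finset V), (2 - (nb G W y).card)
          ≤ ∑ x ∈ W, (2 - (nb G W x).card) := by
        refine Finset.sum_le_sum_of_subset ?_
        intro y hy
        simp only [mem_insert, mem_singleton] at hy
        rcases hy with rfl | rfl
        · exact hx
        · exact hx0
      rwa [Finset.sum_pair hne] at this
    have h2 := hs x hx
    omega
  have hx0nb : nb G W x0 = {x0} := by
    obtain ⟨a, ha⟩ := Finset.card_eq_one.1 hx01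
    have := self_mem_nb (G := G) hx0
    rw [ha, mem_singleton] at this
    rw [ha, this]
  have hx0adj : ∀ y ∈ W, y ≠ x0 → G.Adj x0 y := by
    intro y hy hne
    by_contra hn'
    have : y ∈ nb G W x0 := mem_nb.2 ⟨hy, hn'⟩
    rw [hx0nb, mem_singleton] at this
    exact hne this
  obtain ⟨c, hc1, hc2, hc3, hc4⟩ := pair_col (G := G) n (W.erase x0)
    (by rw [card_erase_of_mem hx0, hW]; simp [mul_comm]) (by
      intro x hx
      have hx' := mem_erase.1 hx
      rw [← hrest x hx'.2 hx'.1]
      congr 1
      ext y
      simp only [mem_nb, mem_erase]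
      constructor
      · rintro ⟨⟨_, a⟩, b⟩
        exact ⟨a, b⟩
      · rintro ⟨a, b⟩
        refine ⟨⟨?_, a⟩, b⟩
        rintro rfl
        exact b (hx0adj x hx'.2 hx'.1).symm)
  refine ⟨fun x => if x = x0 then 0 else c x, ?_⟩
  refine Std4.std hn ⟨?_, ?_, ?_, ?_⟩ (by rw [hW]) (by rw [hS])
  · intro x hx
    by_cases h : x = x0
    · simp only [h, if_true]
      omega
    · simp only [h, if_false]
      exact hc1 x (mem_erase.2 ⟨h, hx⟩)
  · intro x hx y hy hne
    by_cases h : x = x0 <;> by_cases h' : y = x0
    · simp [h, h'] at hne
    · rw [h]; exact hx0adj y hy h'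
    · rw [h']; exact (hx0adj x hx h).symm
    · simp only [h, h', if_false] at hne
      exact hc2 x (mem_erase.2 ⟨h, hx⟩) y (mem_erase.2 ⟨h', hy⟩) hne
  · intro x hx y hy he h0
    by_cases h : x = x0
    · simp [h] at h0
    · by_cases h' : y = x0
      · simp only [h, h', if_false, if_true] at he h0
        exact absurd he h0
      · simp only [h, h', if_false] at he
        exact hc3 x (mem_erase.2 ⟨h, hx⟩) y (mem_erase.2 ⟨h', hy⟩) he
  · intro i hi
    have h4 := hc4 i hi
    by_cases hi0 : i = 0
    · subst hi0
      have : (W.filter fun x => (if x = x0 then 0 else c x) = 0)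
          = insert x0 ((W.erase x0).filter fun x => c x = 0) := by
        ext y
        simp only [mem_filter, mem_insert, mem_erase]
        by_cases h : y = x0
        · subst h
          simp [hx0]
        · simp [h]
      rw [this, card_insert_of_notMem (by simp), h4]
      simp
    · have : (W.filter fun x => (if x = x0 then 0 else c x) = i)
          = (W.erase x0).filter fun x => c x = i := by
        ext y
        simp only [mem_filter, mem_erase]
        by_cases h : y = x0
        · subst h
          constructor
          · rintro ⟨_, e⟩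
            rw [if_pos rfl] at e
            exact absurd e.symm hi0
          · rintro ⟨⟨e, _⟩, _⟩
            exact absurd rfl e
        · simp [h]
      rw [this, h4, if_neg hi0]

end Pool.Agent.W2helper8.AF
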