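import Mathlib
import Pool.Agent.W2helper8.AF.Stm

/-!
# MP_a320f3_co: the reduced simplicial homology of the flag complex of a graph, and piece HOM
-/

namespace Pool.Agent.W2helper8.AF

open Finset
open scoped Classical

universe u w

/-- the sign of adding the vertex `x` to the simplex `τ`: `(-1)` to the number of vertices of `τ`
smaller than `x` -/
noncomputable def sgn (k : Type w) [Field k] {V : Type u} [LinearOrder V] (x : V)
    (τ : Finset V) : k := (-1) ^ (τ.filter fun y => y < x).card

/-- the (augmented) simplicial boundary of a chain `c`, evaluated at the simplex `τ` -/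
noncomputable def bd (k : Type w) [Field k] {V : Type u} [Fintype V] [LinearOrder V]
    (c : Finset V → k) (τ : Finset V) : k :=
  ∑ x ∈ univ.filter (fun x => x ∉ τ), sgn k x τ * c (insert x τ)

/-- `c` is a chain on the simplices of the flag complex of `G` with `i` vertices (the case `i = 0`
is the augmentation) -/
def IsChain (k : Type w) [Field k] {V : Type u} (G : SimpleGraph V) (i : ℕ)
    (c : Finset V → k) : Prop := ∀ σ, c σ ≠ 0 → G.IsNClique i σ

/-- the reduced homology of the flag complex of `G` over `k` vanishes in degree `i - 1` -/
def HZero (k : Type w) [Field k] {V : Type u} [Fintype V] [LinearOrder V]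
    (G : SimpleGraph V) (i : ℕ) : Prop :=
  ∀ c : Finset V → k, IsChain k G i c → (∀ τ, bd k c τ = 0) →
    ∃ d : Finset V → k, IsChain k G (i + 1) d ∧ ∀ τ, bd k d τ = c τ

/-- the flag complex of `G` is acyclic over `k`: its reduced simplicial homology vanishes in every
degree -/
def Acyclic (k : Type w) [Field k] {V : Type u} [Fintype V] [LinearOrder V]
    (G : SimpleGraph V) : Prop := ∀ i : ℕ, HZero k G i

/-- piece HOM -/
def HomStm : Prop := ∀ (k : Type w) [Field k] {V : Type u} [Fintype V] [LinearOrder V]
  (G : SimpleGraph V) (n : ℕ), G.CliqueFree (n + 2) → HZero k G (n + 1) →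
  Bad G n (univ : Finset V) → False

end Pool.Agent.W2helper8.AF
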