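import Mathlib
import Pool.Agent.W2helper8.AF.HomStm
import Pool.Agent.W2helper8.AF.E2
import Pool.Agent.W2helper92.AF.HOM
import Pool.Agent.W2helper82.AF.X
import Pool.Agent.W2helper82.AF.RSTEP
import Pool.Agent.W2helper52.AF.Classify
import Pool.Agent.W2helper11.AF.SWAP
import Pool.Agent.W2helper11.AF.ESTEP
import Pool.Agent.W4helper65.AF.COMB
import Pool.Agent.W2helper6.AF.ASM

/-!
# MP_a320f3_co: all pieces together
-/

namespace Pool.Agent.W2helper8.AF

universe u w

theorem hom' : HomStm.{u, w} := Pool.Agent.W2helper92.AF.p_hom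

theorem comb' : CombStm.{u} :=
  Pool.Agent.W4helper65.AF.p_comb
    (Pool.Agent.W2helper82.AF.p_rstep Pool.Agent.W2helper82.AF.p_x) p_e2
    (Pool.Agent.W2helper11.AF.p_estep Pool.Agent.W2helper52.AF.p_classify
      Pool.Agent.W2helper6.AF.p_asm Pool.Agent.W2helper11.AF.p_swap)

end Pool.Agent.W2helper8.AF
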