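import Mathlib
import Pool.Agent.W2helper8.AF.HomStm

/-!
# MP_a320f3_co: edge count, dimension zero, and the final assembly
-/

namespace Pool.Agent.W2helper8.AF

open Finset
open scoped Classical

universe u w

theorem S_univ {V : Type u} [Fintype V] (G : SimpleGraph V) :
    (S G (univ : Finset V) : ℤ) = (Fintype.card V : ℤ) ^ 2 - 2 * (G.edgeSet.ncard : ℤ) := by
  have h1 : ∀ x : V, (nb G univ x).card + G.degree x = Fintype.card V := by
    intro x
    have h := Finset.card_filter_add_card_filter_not (s := (univ : Finset V)) (fun y => G.Adj x y)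
    have h2 : (univ.filter fun y => G.Adj x y) = G.neighborFinset x := by
      ext y; simp
    rw [h2, SimpleGraph.card_neighborFinset_eq_degree, Finset.card_univ] at h
    rw [nb]
    omega
  have h2 : S G (univ : Finset V) + ∑ x : V, G.degree x = Fintype.card V * Fintype.card V := by
    rw [S, ← Finset.sum_add_distrib, Finset.sum_congr rfl fun x _ => h1 x, Finset.sum_const,
      Finset.card_univ, smul_eq_mul]
  rw [G.sum_degrees_eq_twice_card_edges] at h2
  have h3 : G.edgeSet.ncard = G.edgeFinset.card := by
    rw [← SimpleGraph.coe_edgeFinset, Set.ncard_coe_finset]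
  rw [h3]
  have h4 : (S G (univ : Finset V) : ℤ) + 2 * (G.edgeFinset.card : ℤ)
      = (Fintype.card V : ℤ) * Fintype.card V := by exact_mod_cast h2
  nlinarith

/-- dimension `0`: no edges and `H̃_0 = 0` -/
theorem dim_zero (k : Type w) [Field k] {V : Type u} [Fintype V] [LinearOrder V]
    (G : SimpleGraph V) (hfree : G.CliqueFree 2) (h : HZero k G 1) : Fintype.card V ≤ 1 := by
  rw [Fintype.card_le_one_iff]
  intro x y
  by_contra hxy
  set c : Finset V → k := fun σ => if σ = {x} then 1 else if σ = {y} then -1 else 0 with hc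
  have hxy' : ({x} : Finset V) ≠ {y} := fun e => hxy (Finset.singleton_injective e)
  obtain ⟨d, hd, hd'⟩ := h c (by
    intro σ hσ
    by_cases h1 : σ = {x}
    · rw [h1]; simp [SimpleGraph.isNClique_iff]
    · by_cases h2 : σ = {y}
      · rw [h2]; simp [SimpleGraph.isNClique_iff]
      · simp [hc, h1, h2] at hσ) (by
    intro τ
    rcases τ.eq_empty_or_nonempty with rfl | ⟨t, ht⟩
    · rw [bd]
      have : ∀ z : V, sgn k z ∅ * c (insert z ∅) = (if z = x then 1 else 0) - (if z = y then 1 else 0) := by
        intro z
        have e : (insert z ∅ : Finset V) = {z} := rfl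
        rw [e]
        simp only [sgn, Finset.filter_empty, Finset.card_empty, pow_zero, one_mul, hc,
          Finset.singleton_inj]
        by_cases h1 : z = x
        · subst h1
          simp [hxy]
        · by_cases h2 : z = y
          · subst h2
            simp [h1]
          · simp [h1, h2]
      rw [Finset.sum_congr rfl fun z _ => this z]
      simp
    · rw [bd]
      refine Finset.sum_eq_zero fun z hz => ?_
      have hz' := (mem_filter.1 hz).2
      have h3 : ∀ w : V, insert z τ ≠ {w} := by
        intro w e
        have hz1 : z ∈ ({w} : Finset V) := e ▸ mem_insert_self z τ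
        have ht1 : t ∈ ({w} : Finset V) := e ▸ mem_insert_of_mem ht
        rw [mem_singleton] at hz1 ht1
        exact hz' (by rw [hz1, ← ht1]; exact ht)
      simp [hc, h3])
  have hd0 : ∀ σ, d σ = 0 := by
    intro σ
    by_contra hne
    exact hfree σ (hd σ hne)
  have h4 := hd' {x}
  rw [bd, Finset.sum_eq_zero (fun z _ => by rw [hd0, mul_zero])] at h4
  simp [hc] at h4

/-- the final assembly -/
theorem final (hhom : HomStm.{u, w}) (hcomb : CombStm.{u}) (k : Type w) [Field k] (V : Type u)
    [Fintype V] [LinearOrder V] (G : SimpleGraph V) (n : ℕ) (hne : Nonempty V)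
    (hfree : G.CliqueFree (n + 2)) (hz : HZero k G (n + 1)) :
    ((Fintype.card V : ℤ) - 1) ^ 2 ≤
      (n : ℤ) * ((Fintype.card V : ℤ) ^ 2 - 2 * (G.edgeSet.ncard : ℤ) - 1) := by
  rcases Nat.eq_zero_or_pos n with rfl | hn
  · have h1 := dim_zero k G hfree hz
    have h2 : 1 ≤ Fintype.card V := Fintype.card_pos
    have h3 : Fintype.card V = 1 := le_antisymm h1 h2
    simp [h3]
  · have h := hcomb G n univ hn univ_nonempty
      ⟨fun s _ => hfree s, fun hb => hhom k G n hfree hz hb⟩
    rw [S_univ, Finset.card_univ] at h
    exact h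

end Pool.Agent.W2helper8.AF
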