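import Pool.Agent.W2helper8.AF.HomStm

/-!
# Project AF (MP_a320f3_co, full answer Q1): paper proofs of the pieces

Notation: `nb W x` = nonneighbours of `x` in `W`, with `x`; `s x = |nb W x|`; `S W = Σ s x`.
All statements: `Pool.Agent.W2helper8.AF.Stm` / `HomStm`.  `Stm` already contains: `bad_of_pairs`
(core + pairs gives `Bad`), `clique_of_reps`, `greedy`, `S_sdiff`, `S_erase`, `S_clique`,
`S_parity`, `card_le_S`, `Std4.nb_eq`, `Std4.card_nb`, `Std4.std`, `Bad.mono`, `Ok.mono`.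

## X   (Std set plus one vertex in the regular case is Bad)
`T` = colour 0 vertices of `W.erase x0`, `|T| = q+1`, `S T = q^2+1`.  For `y ∈ W.erase x0` with
`c y ≠ 0`: `nb (W.erase x0) y` has `q` elements (`Std4.card_nb`) and so has `nb W y`, hence
`x0 ∉ nb W y`, i.e. `y ~ x0`.  So `nb W x0 ⊆ insert x0 T`, `|nb W x0 ∩ T| = q-1`.
Core `C = insert x0 T`, `|C| = q+2`: by `S_erase` (x0 in C) `S C = S T + 2|nb C x0| - 1
= q^2+1+2q-1 = q^2+2q`, and `S C + 2|C| = q^2+4q+4 = |C|^2`.  Pairs: for every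
`i ∈ Finset.Ico 1 n` two different elements of the colour class `i` (it has `q ≥ 2` elements);
`bad_of_pairs` with `I = Ico 1 n` (card `n-1`).

## RSTEP (uses `X : XStm` as a hypothesis, or prove it with `X` as an argument)
State it as `theorem p_rstep (hX : XStm.{u}) : RStepStm.{u}`.
`W` Ok, `|W| = m+1 = n q + j + 1`, `j ≤ n`.  If `j = 0`, `q ≥ 1`: replace `(q,0)` by `(q-1,n)`, the
bound is the same number.  If `j = 0, q = 0`: `S ≥ |W| = 1`.  So let `j ≥ 1`; then
`m = n q + (j-1) + 1` (if m ≥ 1), and `R G n m` gives `S (W.erase x) ≥ B := 1+nq²+(j-1)(2q+1)`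
for all `x ∈ W`.  Summing `S_erase` over `W`: `Σ_x S(W.erase x) + 2 S W = |W| (S W + 1)`, so
`(|W|-2) S W + |W| ≥ |W| B`.  Target `T = B + 2q+1`.  If `S W < T` then by parity (`S_parity`;
`T ≡ |W| mod 2`) `S W ≤ T-2`; then `(|W|-2)(T-2) ≥ |W|(B-1)` simplifies to
`-2(j-1)(q+1) ≥ 0`, so `j = 1`, `|W| = nq+2`, `S W = T-2 = nq²+2q`, and equality everywhere:
all `S (W.erase x) = B = 1+nq²`, hence all `s x = q` (`S_erase`).  `q = 0`: `m+1 = 2`,
`S ≥ 2`. `q = 1`: all `s x = 1`: `W` is a clique with `n+2` elements, contradiction to Ok.  `q ≥ 2`: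
pick `x0 ∈ W`; `E G n q` for `W.erase x0` gives `c` with `Std`; `X` gives `Bad G n W`.

## E2
`W` Ok, `|W| = 2n+1`, `S W = 1+4n`.  `R G n (2n)` (with `q = 1, j = n-1`) for `W.erase x`:
`1 + n + (n-1)*3 = 4n-2 ≤ S (W.erase x) = S W + 1 - 2 s x`, so `s x ≤ 2` for all x ∈ W.
`Σ (2 - s x) = 1`, so exactly one `x0` has `s x0 = 1`, all the others `s x = 2`.
Pair colouring lemma (induction on `m`): if `|M| = 2m` and `|nb M x| = 2` for all `x ∈ M` there is
`c` with `c x < m` on `M`, `c x = c y ↔ ¬ x ~ y` for `x,y ∈ M`, all classes of size 2 (take x, its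
partner p, `M \ {x,p}`, colour them `m-1`).  Apply to `W.erase x0` with `m = n`, and give `x0`
colour `0`.  Then `Std4 G n 2 W c`, and `Std4.std`.

## The context `Ctx G n q Y U` (pieces CLASSIFY, ASM, SWAP)
`T` = colour-0 class of `Y` (`q+1` elements, `S T = q²+1`, i.e. `q` edges, and more than 0 edges),
`K_i` = colour-`i` class (`q` elements, independent), `N(u) = nb Y u`, `|N(u)| = q` for `u ∈ U`.
Facts: (F1) `x ∈ Y, c x ≠ 0`: at most one `u ∈ U` is nonadjacent to `x` (from `sx`: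
`nb (Y∪U) x ⊇ K_{c x} ∪ {u,u'}`).  (F2) no clique with `n+2` vertices; (F3) not Bad.

### CLASSIFY (`u ∈ U`)
(1) If some `K_i ⊆ N(u)`, `1 ≤ i < n`: by cardinality `N(u) = K_i`: `Ty i`.
(2) Otherwise every `K_i` has a `w_i` with `u ~ w_i`.  Then two vertices `t,t'` of `T` adjacent to
`u` are not adjacent (else `{u,t,t'} ∪ {w_i : 1 ≤ i < n}` is a clique with n+2 elements,
`clique_of_reps`).  If `N(u) ⊆ T`: `Ty 0`.  Otherwise `|N(u) ∩ T| ≤ q-1`, `|T \ N(u)| ≥ 2`.  If all
`K_j \ N(u)` (1 ≤ j < n) have ≥ 2 elements: core `C = insert u T`, `|C| = q+2`,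
`S C = S T + 2|nb C u| - 1 ≤ q²+1 + 2q - 1`, so `S C + 2|C| ≤ |C|²`, with the pairs in the
`K_j \ N(u)`: Bad, contradiction.  So some `K_j \ N(u) = {w}`, `|K_j ∩ N(u)| = q-1`, and exactly one
more element `z` in `N(u)`.  `z ∈ T`, because `T` has an edge (`S T < |T|²`) and `T \ N(u)` is
independent; this gives also that `T \ {z}` is independent: `TyC u z w j`.

### ASM (all `u ∈ U` have a type `Ty i`)
choose `h u` with `Ty G n Y c (h u) u`.  `h` is injective on `U`: `h u = h u' = i ≠ 0`, `u ≠ u'`: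
an element of `K_i` has two nonneighbours in `U`, contradiction to (F1).  `h u = h u' = 0`: `N(u) ⊆ T`,
`|N(u)| = q`, so `u` has exactly one neighbour in `T` (`|T| = q+1`), the same for `u'`, and `u ~ u'`:
core `C = T ∪ {u,u'}`, `|C| = q+3`, `S C = S T + (2(q+1)-1) + (2(q+1)-1) = q²+4q+3`
(apply `S_erase` twice, or `S_sdiff` with `{u,u'}`; nonneighbours of `u` in `C`: itself and `q` in
`T`), `S C + 2|C| = q²+6q+9 = |C|²`; pairs in the `K_i` (`q ≥ 2`): Bad.  So `h : U → {0..n-1}` is a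
bijection (`|U| = n`).  Colour: `c' x = h x` for `x ∈ U`, `c x` otherwise.  All of `Std4 G n (q+1)` is
clear (each class gets exactly one more element).

### SWAP (`u ∈ U` has `TyC u z y i`)
`z` is adjacent to all of `T \ {z}`: `T\{z}` is independent with `q` elements, `S (T\{z}) = q²`,
`S_erase`: `q² + 2|nb T z| = q²+1+1`, so `nb T z = {z}`.
New colouring `c'` : `z ↦ 0`; `c x = 0, x ≠ z ↦ i`; `c x = i ↦ 0`; the rest as `c`.  `Std G n q Y c'`
(class 0 is `{z} ∪ K_i`, where `z` is adjacent to all and `K_i` is independent: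
`S = q² + 1`; class `i` is `T \ {z}`).  `N(u) = {z} ∪ (K_i \ {y})` is contained in the new class 0 `T'`,
and `y ≠ z` is the unique neighbour of `u` in `T'`.
Claim: no `u' ∈ U` has `TyC c' u' z' y' i'`.  `u' ≠ u`: since N(u) is inside class 0 of `c'` while
`N(u')` contains `K'_{i'} \ {y'} ≠ ∅` (q ≥ 2).  `z' = z`: if not, `T' \ {z'}` contains `z` and
another vertex (`|T'| = q+1 ≥ 3`), which are adjacent, against the last clause of TyC.  Then `u'`
is adjacent to `y` (`c' y = 0 ≠ i'`, `y ≠ z`).  The set `{u, u', y, y'}` ∪ one vertex of each class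
`j ∈ [1,n) \ {i'}` is a clique with `4 + (n-2) = n+2` elements (u ~ everything of colour ≠ 0, `u ~ y`,
`u' ~` everything of colour `≠ i'` other than `z`, `u' ~ y'`), contradiction.

### ESTEP (hypotheses CLASSIFY, ASM, SWAP)
State it as `theorem p_estep (h1 : ClassifyStm.{u}) (h2 : AsmStm.{u}) (h3 : SwapStm.{u}) : EStepStm.{u}`.
Let `Q = q+1`.  `W` Ok, `|W| = nQ+1`, `S W = 1+nQ²`.  `R G n (nQ)` (with `q` and `j = n-1`:
`nQ = n q + (n-1) + 1`) for `W.erase x`: `1+nq²+(n-1)(2q+1) ≤ S W + 1 - 2 s x` gives `s x ≤ Q`.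
`Σ (Q - s x) = Q-1`, so `A = {x ∈ W : s x = Q}` has at least `nQ+1-(Q-1)` elements; `greedy` gives an
`n`-clique `U ⊆ A` (`n Q < |A| + Q`).  `Y = W \ U`: `|Y| = nq+1`,
`S Y = S W + S U - 2 n Q = 1 + nQ² + n - 2nQ = 1 + n q²` (`S_sdiff`, `S_clique`).  `E G n q` gives `c`
with `Std G n q Y c`.  `Ctx G n q Y U` holds (`su`: `nb W u` is the disjoint union of `nb Y u` and
`{u}`).  If no `TyC` occurs: CLASSIFY + ASM; else SWAP gives `c'` without `TyC`, CLASSIFY + ASM.
Then `Std4.std`.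

## COMB (hypotheses RSTEP, E2, ESTEP)
State it as `theorem p_comb (h1 : RStepStm.{u}) (h2 : E2Stm.{u}) (h3 : EStepStm.{u}) : CombStm.{u}`.
Induction on `m`: `R G n m'` for all `m' ≤ m` and `E G n q` for all `q ≥ 2` with `n q + 1 ≤ m`
(strong induction; `R G n 0` is vacuous because `m = nq+j+1 ≥ 1`).
Then for `W` nonempty write `|W| - 1 = n q + j`, `j < n`:
`n (S W - 1) ≥ n (n q² + j (2q+1)) ≥ (nq+j)²` since `j ≤ n`.

## HOM
Chains `c : Finset V → k`, `bd`.  Cone `cone a z σ = if a ∈ σ then sgn a (σ.erase a) * z (σ.erase a)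
else 0`.  If `z` vanishes on all sets containing `a`:
`bd (cone a z) τ = z τ - cone a (bd z) τ` for all `τ` (case `a ∉ τ`: only `x = a` contributes,
`sgn² = 1`; case `a ∈ τ`, `τ = insert a ρ`: for `x ∉ τ`,
`sgn x (insert a ρ) * sgn a (insert x ρ) = - sgn a ρ * sgn x ρ`).
Claim: `Bad G n W` implies `∃ z ≠ 0`, `z σ ≠ 0 → G.IsNClique (n+1) σ ∧ σ ⊆ W`, `bd z τ = 0` for all τ.
* `susp`: `z' = cone a z - cone b z`, `bd z' = z - z = 0`; `z' (insert a σ) = ± z σ ≠ 0` for some σ
  (b ∉ σ, since `σ ⊆ {x | b ~ x}`).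
* `cyc`: the number of 2-cliques in `C` is `(|C|² - S C)/2 ≥ |C|`; the linear map
  (functions on 2-cliques of `C`) → (functions on `C`), `c ↦ (x ↦ bd c {x})` has image in the functions
  with sum 0, a proper subspace, so its kernel is nonzero (dimensions).
Then with `n`, `W = univ`: `z` is a chain with `bd z = 0`, so by `HZero k G (n+1)` `z = bd d` with
`d` a chain on `(n+2)`-cliques, so `d = 0`, `z = 0`: contradiction.
-/
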